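import Pool.Agent.V113.Hol.Count

/-!
# A holonomic module whose normalised dimensions do not converge

Question Q2 of MP_12ebf5_al has a negative answer over every field of positive characteristic, for
`n = 1`. The definitions are in `Pool/Agent/V113/Hol/Defs.lean`.
-/

set_option autoImplicit false

open Filter Pool.Agent.V113.Hol

namespace Pool.Agent.Results.MP_12ebf5_al.NoLimit

universe u

/-- Over every field `k` of characteristic `p > 0` there are a holonomic left module over the ring
`𝒟` of differential operators of `k[x]` (so `n = 1`) and a finite generating set of it such that,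
`M_0` being its `k`-span and `M_i = F_i M_0`, the sequence `dim M_i / i` does not converge. -/
theorem result :
    ∀ (p : ℕ) [Fact p.Prime] (k : Type u) [Field k] [CharP k p],
      ∃ (M : Type u) (_ : AddCommGroup M) (_ : Module (DiffOp k) M) (_ : Module k M)
        (_ : IsScalarTower k (DiffOp k) M),
        IsHolonomic k M ∧
        ∃ s : Finset M, Submodule.span (DiffOp k) (s : Set M) = ⊤ ∧
          ¬ ∃ L : ℝ, Tendsto
            (fun i : ℕ => (Module.finrank k (Filt k (Submodule.span k (s : Set M)) i) : ℝ) /
              (i : ℝ) ^ 1) atTop (nhds L) := by
  intro p _ k _ _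
  refine ⟨MM p k, inferInstance, inferInstance, inferInstance, inferInstance, holonomic p k,
    {gen p k}, ?_, ?_⟩
  · rw [Finset.coe_singleton]
    exact span_gen p k
  · rw [Finset.coe_singleton]
    rintro ⟨L, hL⟩
    exact not_tendsto p k L hL

end Pool.Agent.Results.MP_12ebf5_al.NoLimit
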